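import Mathlib

/-!
Every `k`-crowded separable metric space has a dense `σ`-compact `k`-crowded plastic subspace.
-/

set_option autoImplicit false

open Set Filter Topology

namespace Pool.Agent.Results.MP_4aa5c9_gt.PlasticDense

universe u

/-- A metric space is plastic if each non-expansive bijection of it onto itself is an isometry. -/
def Plastic (X : Type u) [MetricSpace X] : Prop :=
  ∀ f : X → X, Function.Bijective f → (∀ x y, dist (f x) (f y) ≤ dist x y) →
    ∀ x y, dist (f x) (f y) = dist x y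

/-- A space is `k`-crowded if each nonempty open subset contains an uncountable compact set. -/
def KCrowded (X : Type u) [TopologicalSpace X] : Prop :=
  ∀ U : Set X, IsOpen U → U.Nonempty → ∃ K ⊆ U, IsCompact K ∧ ¬ K.Countable

variable {Y : Type u} [MetricSpace Y]

/-! ### Separated sets -/

/-- `A` contains at least `n` points with pairwise distances at least `ε`. -/
def Sep (ε : ℝ) (A : Set Y) (n : ℕ) : Prop :=
  ∃ S : Finset Y, ↑S ⊆ A ∧ n ≤ S.card ∧ ∀ x ∈ S, ∀ y ∈ S, x ≠ y → ε ≤ dist x y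

/-- At some scale, `A` contains less separated points than `B`. -/
def Thin (A B : Set Y) : Prop := ∃ ε > 0, ∃ n, Sep ε B n ∧ ¬ Sep ε A n

lemma not_thin {A B : Set Y} (g : Y → Y) (hg : ∀ b ∈ B, g b ∈ A)
    (hd : ∀ b ∈ B, ∀ b' ∈ B, dist b b' ≤ dist (g b) (g b')) : ¬ Thin A B := by
  classical
  rintro ⟨ε, hε, n, ⟨S, hS, hn, hsep⟩, hA⟩
  apply hA
  have hinj : Set.InjOn g S := by
    intro x hx y hy hxy
    have := hd x (hS hx) y (hS hy)
    rw [hxy, dist_self] at this
    exact dist_le_zero.1 this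
  refine ⟨S.image g, ?_, ?_, ?_⟩
  · rw [Finset.coe_image]
    rintro _ ⟨x, hx, rfl⟩
    exact hg x (hS hx)
  · rwa [Finset.card_image_of_injOn hinj]
  · intro x hx y hy hxy
    obtain ⟨a, ha, rfl⟩ := Finset.mem_image.1 hx
    obtain ⟨b, hb, rfl⟩ := Finset.mem_image.1 hy
    have hab : a ≠ b := fun h => hxy (by rw [h])
    exact (hsep a ha b hb hab).trans (hd a (hS ha) b (hS hb))

/-- A positive lower bound of finitely many positive numbers. -/
lemma exists_lower {α : Type*} (S : Finset α) (c : α → ℝ) (hc : ∀ a ∈ S, 0 < c a) :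
    ∃ ε > 0, ∀ a ∈ S, ε ≤ c a := by
  rcases S.eq_empty_or_nonempty with h | h
  · exact ⟨1, one_pos, by simp [h]⟩
  · obtain ⟨a, ha, hmin⟩ := Finset.exists_min_image S c h
    exact ⟨c a, hc a ha, hmin⟩

lemma exists_sep (S : Finset Y) : ∃ ε > 0, ∀ x ∈ S, ∀ y ∈ S, x ≠ y → ε ≤ dist x y := by
  classical
  obtain ⟨ε, hε, h⟩ := exists_lower S.offDiag (fun p => dist p.1 p.2) (by
    rintro ⟨a, b⟩ hab
    exact dist_pos.2 (Finset.mem_offDiag.1 hab).2.2)
  exact ⟨ε, hε, fun x hx y hy hxy => h (x, y) (Finset.mem_offDiag.2 ⟨hx, hy, hxy⟩)⟩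

lemma sep_of_infinite {V : Set Y} (hV : V.Infinite) (n : ℕ) : ∃ ε > 0, Sep ε V n := by
  obtain ⟨S, hS, hn⟩ := hV.exists_subset_card_eq n
  obtain ⟨ε, hε, h⟩ := exists_sep S
  exact ⟨ε, hε, S, hS, hn.ge, h⟩

/-! ### The construction of one compact set -/

/-- A compact set whose traces on small balls contain, at suitable scales, more separated points
than the rest of the set. -/
def Rigid (D : Set Y) : Prop :=
  ∀ x ∈ D, ∀ ρ > 0, Thin (D \ Metric.ball x ρ) (D ∩ Metric.ball x ρ)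

/-- All points of `D` are accumulation points of `D`. -/
def Perf (D : Set Y) : Prop := ∀ x ∈ D, ∀ ρ > 0, (D ∩ Metric.ball x ρ).Infinite

lemma scheme {P : Set Y} (hP : IsCompact P) (hperf : Perf P) (hne : P.Nonempty)
    (V : ℕ → Set Y) (hV : ∀ t, (V t).Infinite) :
    ∃ D ⊆ P, IsCompact D ∧ Perf D ∧ D.Nonempty ∧ Rigid D ∧ ∀ t, Thin D (V t) := by
  classical
  -- one step of the construction
  have hstep : ∀ (t : ℕ) (s : {s : List Y × ℝ // s.1 ≠ [] ∧ (∀ x ∈ s.1, x ∈ P) ∧ 0 < s.2}),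
      ∃ s' : {s : List Y × ℝ // s.1 ≠ [] ∧ (∀ x ∈ s.1, x ∈ P) ∧ 0 < s.2},
      ∃ (E : Finset Y) (x : Y), s'.1.1 = s.1.1 ++ E.toList ∧ E.card = s.1.1.length ∧
        (∀ h : (Nat.unpair t).1 < s.1.1.length, x = s.1.1[(Nat.unpair t).1]) ∧ x ∈ s.1.1 ∧
        (∀ z ∈ E, dist z x + s'.1.2 ≤ s.1.2) ∧ s'.1.2 ≤ s.1.2 / 2 ∧
        (∃ ε > 0, 2 * s'.1.2 < ε ∧ ∀ z ∈ E, ∀ w ∈ E, z ≠ w → ε ≤ dist z w) ∧
        ∃ δ > 0, 2 * s'.1.2 < δ ∧ Sep δ (V t) (s'.1.1.length + 1) := by
    rintro t ⟨⟨L, r⟩, hL, hLP, hr⟩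
    simp only at hL hLP hr
    obtain ⟨x, hx1, hx2⟩ : ∃ x, (∀ h : (Nat.unpair t).1 < L.length, x = L[(Nat.unpair t).1]) ∧
        x ∈ L := by
      by_cases h : (Nat.unpair t).1 < L.length
      · exact ⟨L[(Nat.unpair t).1], fun _ => rfl, List.getElem_mem h⟩
      · exact ⟨L.head hL, fun h' => absurd h' h, List.head_mem hL⟩
    obtain ⟨E, hE, hEc⟩ := (hperf x (hLP x hx2) r hr).exists_subset_card_eq L.length
    obtain ⟨ε, hε, hεE⟩ := exists_sep E
    obtain ⟨c, hc, hcE⟩ := exists_lower E (fun z => r - dist z x) (fun z hz => by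
      have := (hE hz).2
      rw [Metric.mem_ball] at this
      linarith)
    obtain ⟨δ, hδ, hδV⟩ := sep_of_infinite (hV t) ((L ++ E.toList).length + 1)
    have hr' : 0 < min (min (r / 2) c) (min (ε / 4) (δ / 4)) := by positivity
    refine ⟨⟨⟨L ++ E.toList, min (min (r / 2) c) (min (ε / 4) (δ / 4))⟩, ?_, ?_, hr'⟩, E, x, rfl,
      hEc, hx1, hx2, ?_, ?_, ⟨ε, hε, ?_, hεE⟩, δ, hδ, ?_, hδV⟩
    · simp [hL]
    · intro z hz
      rcases List.mem_append.1 hz with hz | hz
      · exact hLP z hz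
      · exact (hE (Finset.mem_toList.1 hz)).1
    · intro z hz
      have h1 := hcE z hz
      have h2 : min (min (r / 2) c) (min (ε / 4) (δ / 4)) ≤ c :=
        (min_le_left _ _).trans (min_le_right _ _)
      simp only
      linarith
    · exact (min_le_left _ _).trans (min_le_left _ _)
    · have h2 : min (min (r / 2) c) (min (ε / 4) (δ / 4)) ≤ ε / 4 :=
        (min_le_right _ _).trans (min_le_left _ _)
      simp only
      linarith
    · have h2 : min (min (r / 2) c) (min (ε / 4) (δ / 4)) ≤ δ / 4 :=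
        (min_le_right _ _).trans (min_le_right _ _)
      simp only
      linarith
  choose step E' x' h1 h2 h3 h4 h5 h6 h7 h8 using hstep
  obtain ⟨x₀, hx₀⟩ := hne
  let s : ℕ → {s : List Y × ℝ // s.1 ≠ [] ∧ (∀ x ∈ s.1, x ∈ P) ∧ 0 < s.2} := fun n =>
    Nat.rec ⟨⟨[x₀], 1⟩, by simp, by simpa using hx₀, one_pos⟩ (fun t s => step t s) n
  have hs : ∀ t, s (t + 1) = step t (s t) := fun _ => rfl
  let L : ℕ → List Y := fun t => (s t).1.1
  let r : ℕ → ℝ := fun t => (s t).1.2
  let E : ℕ → Finset Y := fun t => E' t (s t)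
  let x : ℕ → Y := fun t => x' t (s t)
  have hL : ∀ t, L (t + 1) = L t ++ (E t).toList := fun t => h1 t (s t)
  have hEc : ∀ t, (E t).card = (L t).length := fun t => h2 t (s t)
  have hx : ∀ t, ∀ h : (Nat.unpair t).1 < (L t).length, x t = (L t)[(Nat.unpair t).1] :=
    fun t => h3 t (s t)
  have hxL : ∀ t, x t ∈ L t := fun t => h4 t (s t)
  have hEr : ∀ t, ∀ z ∈ E t, dist z (x t) + r (t + 1) ≤ r t := fun t => h5 t (s t)
  have hr2 : ∀ t, r (t + 1) ≤ r t / 2 := fun t => h6 t (s t)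
  have hrpos : ∀ t, 0 < r t := fun t => (s t).2.2.2
  have hLP : ∀ t, ∀ z ∈ L t, z ∈ P := fun t => (s t).2.2.1
  have hLne : ∀ t, L t ≠ [] := fun t => (s t).2.1
  choose ε hε hε2 hεE using fun t => h7 t (s t)
  choose δ hδ hδ2 hδV using fun t => h8 t (s t)
  -- monotonicity
  have hpre : ∀ t t', t ≤ t' → L t <+: L t' := by
    intro t t' h
    induction h with
    | refl => exact List.prefix_rfl
    | step _ ih => exact ih.trans (by rw [hL]; exact List.prefix_append _ _)
  have hrle : ∀ t, r t ≤ (1 / 2) ^ t * r 0 := by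
    intro t
    induction t with
    | zero => simp
    | succ t ih =>
      have := hr2 t
      rw [pow_succ]
      linarith
  have hrlim : ∀ η > 0, ∃ T, ∀ t ≥ T, r t < η := by
    intro η hη
    have h9 : Tendsto (fun t : ℕ => (1 / 2 : ℝ) ^ t * r 0) atTop (𝓝 0) := by
      have := (tendsto_pow_atTop_nhds_zero_of_lt_one (by norm_num : (0 : ℝ) ≤ 1 / 2)
        (by norm_num)).mul_const (r 0)
      rwa [zero_mul] at this
    obtain ⟨T, hT⟩ := eventually_atTop.1 ((tendsto_order.1 h9).2 η hη)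
    exact ⟨T, fun t ht => (hrle t).trans_lt (hT t ht)⟩
  have hlen : ∀ t, t < (L t).length := by
    intro t
    induction t with
    | zero => exact List.length_pos_iff.2 (hLne 0)
    | succ t ih =>
      rw [hL, List.length_append, Finset.length_toList, hEc]
      omega
  -- nesting
  have hnest1 : ∀ t, ∀ z ∈ L (t + 1), ∃ y ∈ L t, dist z y + r (t + 1) ≤ r t := by
    intro t z hz
    rw [hL] at hz
    rcases List.mem_append.1 hz with hz | hz
    · refine ⟨z, hz, ?_⟩
      rw [dist_self]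
      linarith [hr2 t, hrpos t]
    · exact ⟨x t, hxL t, hEr t z (Finset.mem_toList.1 hz)⟩
  have hnest : ∀ t t', t ≤ t' → ∀ z ∈ L t', ∃ y ∈ L t, dist z y + r t' ≤ r t := by
    intro t t' h
    induction h with
    | refl => exact fun z hz => ⟨z, hz, by rw [dist_self, zero_add]⟩
    | @step t' _ ih =>
      intro z hz
      obtain ⟨w, hw, hzw⟩ := hnest1 t' z hz
      obtain ⟨y, hy, hwy⟩ := ih w hw
      refine ⟨y, hy, ?_⟩
      have := dist_triangle z w y
      have h9 : r (t' + 1) = r t'.succ := rfl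
      linarith
  -- the compact set
  set F : Set Y := {z | ∃ t, z ∈ L t} with hF
  have hFP : F ⊆ P := fun z ⟨t, hz⟩ => hLP t z hz
  have hDP : closure F ⊆ P := closure_minimal hFP hP.isClosed
  have hcov : ∀ t, ∀ d ∈ closure F, ∃ y ∈ L t, dist d y ≤ r t := by
    intro t d hd
    have hcl : IsClosed (⋃ y ∈ (L t).toFinset, Metric.closedBall y (r t)) :=
      isClosed_biUnion_finset fun y _ => Metric.isClosed_closedBall
    have h9 : F ⊆ ⋃ y ∈ (L t).toFinset, Metric.closedBall y (r t) := by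
      rintro z ⟨t', hz⟩
      rcases le_total t t' with h | h
      · obtain ⟨y, hy, hzy⟩ := hnest t t' h z hz
        refine mem_iUnion₂.2 ⟨y, List.mem_toFinset.2 hy, ?_⟩
        rw [Metric.mem_closedBall]
        linarith [hrpos t']
      · refine mem_iUnion₂.2 ⟨z, List.mem_toFinset.2 ((hpre t' t h).subset hz), ?_⟩
        rw [Metric.mem_closedBall, dist_self]
        exact (hrpos t).le
    obtain ⟨y, hy, hdy⟩ := mem_iUnion₂.1 (closure_minimal h9 hcl hd)
    exact ⟨y, List.mem_toFinset.1 hy, Metric.mem_closedBall.1 hdy⟩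
  have hEF : ∀ t, ∀ z ∈ E t, z ∈ F := fun t z hz => ⟨t + 1, by
    rw [hL]; exact List.mem_append.2 (Or.inr (Finset.mem_toList.2 hz))⟩
  -- many stages are devoted to each ball
  have hkey : ∀ d ∈ closure F, ∀ ρ > 0, ∀ N : ℕ, ∃ t ≥ N, dist (x t) d < ρ / 2 ∧ r t < ρ / 4 := by
    intro d hd ρ hρ N
    obtain ⟨z, ⟨t₀, hz⟩, hzd⟩ := Metric.mem_closure_iff.1 hd (ρ / 2) (by linarith)
    obtain ⟨i, hi, hiz⟩ := List.getElem_of_mem hz
    obtain ⟨T, hT⟩ := hrlim (ρ / 4) (by linarith)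
    set k := max (max t₀ N) T
    have hk : k ≤ Nat.pair i k := Nat.right_le_pair i k
    refine ⟨Nat.pair i k, le_trans (le_trans (le_max_right t₀ N) (le_max_left _ _)) hk, ?_,
      hT _ (le_trans (le_max_right _ _) hk)⟩
    have h9 : t₀ ≤ Nat.pair i k := le_trans (le_trans (le_max_left t₀ N) (le_max_left _ _)) hk
    have h10 := hpre _ _ h9
    have h11 : (Nat.unpair (Nat.pair i k)).1 = i := by rw [Nat.unpair_pair]
    have h12 : i < (L (Nat.pair i k)).length := lt_of_lt_of_le hi h10.length_le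
    have h13 : x (Nat.pair i k) = z := by
      rw [hx (Nat.pair i k) (by rw [h11]; exact h12)]
      rw [← hiz]
      simp only [h11]
      exact (h10.getElem hi).symm
    rw [h13, dist_comm]
    exact hzd
  have hEball : ∀ d ∈ closure F, ∀ ρ > 0, ∀ t, dist (x t) d < ρ / 2 → r t < ρ / 4 →
      (E t : Set Y) ⊆ closure F ∩ Metric.ball d ρ := by
    intro d hd ρ hρ t h9 h10 z hz
    refine ⟨subset_closure (hEF t z hz), ?_⟩
    rw [Metric.mem_ball]
    have := hEr t z hz
    have := hrpos (t + 1)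
    have := dist_triangle z (x t) d
    linarith
  refine ⟨closure F, hDP, hP.of_isClosed_subset isClosed_closure hDP, ?_, ?_, ?_, ?_⟩
  · -- perfect
    intro d hd ρ hρ hfin
    obtain ⟨t, ht, h9, h10⟩ := hkey d hd ρ hρ hfin.toFinset.card
    have h11 := hEball d hd ρ hρ t h9 h10
    have h12 : E t ⊆ hfin.toFinset := fun z hz => hfin.mem_toFinset.2 (h11 hz)
    have h13 := Finset.card_le_card h12
    rw [hEc] at h13
    have := hlen t
    omega
  · obtain ⟨z, hz⟩ := List.exists_mem_of_ne_nil _ (hLne 0)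
    exact ⟨z, subset_closure ⟨0, hz⟩⟩
  · -- rigid
    intro d hd ρ hρ
    obtain ⟨t, _, h9, h10⟩ := hkey d hd ρ hρ 0
    refine ⟨ε t, hε t, (L t).length, ⟨E t, hEball d hd ρ hρ t h9 h10, (hEc t).ge, hεE t⟩, ?_⟩
    rintro ⟨S, hS, hcard, hsep⟩
    have h11 : ∀ p ∈ S, ∃ y ∈ (L t).toFinset.erase (x t), dist p y ≤ r (t + 1) := by
      intro p hp
      obtain ⟨hpD, hpb⟩ := hS hp
      obtain ⟨y, hy, hpy⟩ := hcov (t + 1) p hpD
      have hfar : ¬ dist p (x t) ≤ r t := by
        intro h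
        apply hpb
        rw [Metric.mem_ball]
        have := dist_triangle p (x t) d
        linarith
      have hyx : ¬ dist y (x t) + r (t + 1) ≤ r t := by
        intro h
        apply hfar
        have := dist_triangle p y (x t)
        linarith
      rw [hL] at hy
      rcases List.mem_append.1 hy with hy | hy
      · refine ⟨y, Finset.mem_erase.2 ⟨?_, List.mem_toFinset.2 hy⟩, hpy⟩
        rintro rfl
        apply hyx
        rw [dist_self]
        linarith [hr2 t, hrpos t]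
      · exact absurd (hEr t y (Finset.mem_toList.1 hy)) hyx
    choose! g hg hg' using h11
    have h12 : ((L t).toFinset.erase (x t)).card < S.card := by
      have h13 : x t ∈ (L t).toFinset := List.mem_toFinset.2 (hxL t)
      rw [Finset.card_erase_of_mem h13]
      have h14 := List.toFinset_card_le (L t)
      have h15 : 0 < (L t).toFinset.card := Finset.card_pos.2 ⟨_, h13⟩
      omega
    obtain ⟨p, hp, p', hp', hpp, hgg⟩ := Finset.exists_ne_map_eq_of_card_lt_of_maps_to h12 hg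
    have h16 := hsep p hp p' hp' hpp
    have h17 := hg' p hp
    have h18 := hg' p' hp'
    rw [← hgg] at h18
    have h19 := dist_triangle_right p p' (g p)
    have h20 : 2 * r (t + 1) < ε t := hε2 t
    linarith
  · -- thin
    intro t
    refine ⟨δ t, hδ t, (L (t + 1)).length + 1, hδV t, ?_⟩
    rintro ⟨S, hS, hcard, hsep⟩
    have h11 : ∀ p ∈ S, ∃ y ∈ (L (t + 1)).toFinset, dist p y ≤ r (t + 1) := by
      intro p hp
      obtain ⟨y, hy, hpy⟩ := hcov (t + 1) p (hS hp)
      exact ⟨y, List.mem_toFinset.2 hy, hpy⟩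
    choose! g hg hg' using h11
    have h12 : (L (t + 1)).toFinset.card < S.card :=
      lt_of_le_of_lt (List.toFinset_card_le _) hcard
    obtain ⟨p, hp, p', hp', hpp, hgg⟩ := Finset.exists_ne_map_eq_of_card_lt_of_maps_to h12 hg
    have h16 := hsep p hp p' hp' hpp
    have h17 := hg' p hp
    have h18 := hg' p' hp'
    rw [← hgg] at h18
    have h19 := dist_triangle_right p p' (g p)
    have h20 : 2 * r (t + 1) < δ t := hδ2 t
    linarith

/-! ### The sequence of compact sets -/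

lemma perf_of_preperfect {P : Set Y} (hP : Preperfect P) : Perf P := by
  intro x hx ρ hρ hfin
  have h1 := accPt_iff_nhds.1 (hP x hx)
  have h2 : Metric.ball x ρ \ ((P ∩ Metric.ball x ρ) \ {x}) ∈ 𝓝 x := by
    refine IsOpen.mem_nhds (Metric.isOpen_ball.sdiff ?_) ⟨Metric.mem_ball_self hρ, fun h => h.2 rfl⟩
    exact (hfin.subset sdiff_subset).isClosed
  obtain ⟨y, ⟨hy1, hyP⟩, hyx⟩ := h1 _ h2
  exact hy1.2 ⟨⟨hyP, hy1.1⟩, hyx⟩

lemma thin_mono {A B B' : Set Y} (h : Thin A B) (hB : B ⊆ B') : Thin A B' := by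
  obtain ⟨ε, hε, n, ⟨S, hS, h1, h2⟩, h3⟩ := h
  exact ⟨ε, hε, n, ⟨S, hS.trans hB, h1, h2⟩, h3⟩

lemma uncountable_of_perf {D : Set Y} (hD : IsCompact D) (hperf : Perf D) (hne : D.Nonempty) :
    ¬ D.Countable := by
  intro hc
  have : Countable D := hc.to_subtype
  have : CompactSpace D := isCompact_iff_compactSpace.1 hD
  have : Nonempty D := hne.to_subtype
  obtain ⟨d, x, hx⟩ := nonempty_interior_of_iUnion_of_closed (f := fun d : D => ({d} : Set D))
    (fun d => isClosed_singleton) (by ext x; simp)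
  have hxd : x = d := mem_singleton_iff.1 (interior_subset hx)
  obtain ⟨ρ, hρ, hb⟩ := Metric.isOpen_iff.1 isOpen_interior x hx
  apply hperf x.1 x.2 ρ hρ
  refine (finite_singleton d.1).subset ?_
  rintro y ⟨hyD, hy⟩
  have h1 : (⟨y, hyD⟩ : D) ∈ interior ({d} : Set D) := hb hy
  have h2 : (⟨y, hyD⟩ : D) = d := mem_singleton_iff.1 (interior_subset h1)
  exact congrArg Subtype.val h2

lemma build [SecondCountableTopology Y] (hY : KCrowded Y) (m : ℕ) (S : ℕ → Set Y)
    (hS : ∀ n, IsCompact (S n) ∧ Perf (S n)) {B : Set Y} (hB : IsOpen B) :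
    ∃ D : Set Y, IsCompact D ∧ Perf D ∧ D ⊆ B ∧ (∀ n < m, Disjoint D (S n)) ∧
      (¬ B ⊆ ⋃ n ∈ Finset.range m, S n → D.Nonempty) ∧ Rigid D ∧
      ∀ n < m, ∀ x ∈ S n, ∀ ρ > 0, Thin D (S n ∩ Metric.ball x ρ) := by
  by_cases hBS : B ⊆ ⋃ n ∈ Finset.range m, S n
  · refine ⟨∅, isCompact_empty, fun x hx => absurd hx (notMem_empty x), empty_subset _,
      fun n _ => empty_disjoint _, fun h => absurd hBS h, fun x hx => absurd hx (notMem_empty x), ?_⟩
    intro n _ x hx ρ hρ
    refine ⟨1, one_pos, 1, ⟨{x}, ?_, by simp, ?_⟩, ?_⟩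
    · rw [Finset.coe_singleton, singleton_subset_iff]
      exact ⟨hx, Metric.mem_ball_self hρ⟩
    · intro a ha b hb hab
      rw [Finset.mem_singleton] at ha hb
      exact absurd (ha.trans hb.symm) hab
    · rintro ⟨T, hT, hcard, _⟩
      obtain ⟨z, hz⟩ := Finset.card_pos.1 (Nat.lt_of_lt_of_le Nat.zero_lt_one hcard)
      exact hT hz
  · have hcl : IsClosed (⋃ n ∈ Finset.range m, S n) :=
      isClosed_biUnion_finset fun n _ => (hS n).1.isClosed
    obtain ⟨x, hxB, hxS⟩ := not_subset.1 hBS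
    obtain ⟨K, hKU, hK, hKc⟩ := hY (B \ ⋃ n ∈ Finset.range m, S n) (hB.sdiff hcl) ⟨x, hxB, hxS⟩
    obtain ⟨P, hP, hPne, hPK⟩ := exists_perfect_nonempty_of_isClosed_of_not_countable hK.isClosed hKc
    have hPc : IsCompact P := hK.of_isClosed_subset hP.closed hPK
    have hPp : Perf P := perf_of_preperfect hP.acc
    obtain ⟨b, hbc, _, hb⟩ := TopologicalSpace.exists_countable_basis Y
    have hbne : b.Nonempty := by
      obtain ⟨v, hv, _⟩ := hb.exists_subset_of_mem_open (mem_univ x) isOpen_univ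
      exact ⟨v, hv⟩
    obtain ⟨e, rfl⟩ := hbc.exists_eq_range hbne
    classical
    have hPinf : P.Infinite := by
      obtain ⟨z, hz⟩ := hPne
      exact (hPp z hz 1 one_pos).mono inter_subset_left
    obtain ⟨D, hDP, hDc, hDp, hDne, hDr, hDV⟩ := scheme hPc hPp hPne
      (fun t => if (S (Nat.unpair t).1 ∩ e (Nat.unpair t).2).Nonempty then
        S (Nat.unpair t).1 ∩ e (Nat.unpair t).2 else P) (by
      intro t
      by_cases h : (S (Nat.unpair t).1 ∩ e (Nat.unpair t).2).Nonempty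
      · simp only [h, if_true]
        obtain ⟨z, hz, hze⟩ := h
        obtain ⟨ρ, hρ, hρe⟩ := Metric.isOpen_iff.1 (hb.isOpen ⟨_, rfl⟩) z hze
        exact ((hS _).2 z hz ρ hρ).mono (inter_subset_inter_right _ hρe)
      · simp only [h, if_false]
        exact hPinf)
    refine ⟨D, hDc, hDp, fun z hz => (hKU (hPK (hDP hz))).1, ?_, fun _ => hDne, hDr, ?_⟩
    · intro n hn
      rw [disjoint_left]
      intro z hz hzS
      exact (hKU (hPK (hDP hz))).2 (mem_iUnion₂.2 ⟨n, Finset.mem_range.2 hn, hzS⟩)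
    · intro n _ z hz ρ hρ
      obtain ⟨_, ⟨k, rfl⟩, hzk, hkρ⟩ := hb.exists_subset_of_mem_open (Metric.mem_ball_self hρ)
        Metric.isOpen_ball
      have h1 := hDV (Nat.pair n k)
      simp only [Nat.unpair_pair] at h1
      rw [if_pos ⟨z, hz, hzk⟩] at h1
      exact thin_mono h1 (inter_subset_inter_right _ hkρ)

lemma exists_seq [SecondCountableTopology Y] (hY : KCrowded Y) (b : ℕ → Set Y)
    (hb : ∀ k, IsOpen (b k)) :
    ∃ C : ℕ → Set Y, ∀ m, IsCompact (C m) ∧ Perf (C m) ∧ C m ⊆ b m ∧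
      (∀ n < m, Disjoint (C m) (C n)) ∧
      (¬ b m ⊆ ⋃ n ∈ Finset.range m, C n → (C m).Nonempty) ∧ Rigid (C m) ∧
      ∀ n < m, ∀ x ∈ C n, ∀ ρ > 0, Thin (C m) (C n ∩ Metric.ball x ρ) := by
  classical
  choose D h1 h2 h3 h4 h5 h6 h7 using fun (m : ℕ)
    (S : {S : ℕ → Set Y // ∀ n, IsCompact (S n) ∧ Perf (S n)}) => build hY m S.1 S.2 (hb m)
  let S : ℕ → {S : ℕ → Set Y // ∀ n, IsCompact (S n) ∧ Perf (S n)} := fun m =>
    Nat.rec ⟨fun _ => ∅, fun _ => ⟨isCompact_empty, fun x hx => absurd hx (notMem_empty x)⟩⟩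
      (fun m S => ⟨Function.update S.1 m (D m S), fun n => by
        by_cases hn : n = m
        · subst hn
          rw [Function.update_self]
          exact ⟨h1 _ _, h2 _ _⟩
        · rw [Function.update_of_ne hn]
          exact S.2 n⟩) m
  have hS : ∀ m, (S (m + 1)).1 = Function.update (S m).1 m (D m (S m)) := fun _ => rfl
  have hC : ∀ n m, n < m → (S m).1 n = D n (S n) := by
    intro n m h
    induction h with
    | refl => rw [hS, Function.update_self]
    | @step k hk ih =>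
      rw [hS, Function.update_of_ne (show n ≠ k from (Nat.lt_of_succ_le hk).ne), ih]
  refine ⟨fun m => D m (S m), fun m => ⟨h1 _ _, h2 _ _, h3 _ _, ?_, ?_, h6 _ _, ?_⟩⟩
  · intro n hn
    have := h4 m (S m) n hn
    rwa [hC n m hn] at this
  · intro h
    apply h5 m (S m)
    intro h'
    apply h
    refine h'.trans ?_
    intro z hz
    obtain ⟨n, hn, hzn⟩ := mem_iUnion₂.1 hz
    rw [hC n m (Finset.mem_range.1 hn)] at hzn
    exact mem_iUnion₂.2 ⟨n, hn, hzn⟩
  · intro n hn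
    have := h7 m (S m) n hn
    rwa [hC n m hn] at this

/-! ### The main theorem -/

section main

variable {C : ℕ → Set Y}

/-- The only non-expansive bijection of `⋃ C m` is the identity. -/
lemma eq_id [SecondCountableTopology Y] (hC : ∀ m, IsCompact (C m))
    (hdisj : ∀ m, ∀ n < m, Disjoint (C m) (C n)) (hrigid : ∀ m, Rigid (C m))
    (hthin : ∀ m, ∀ n < m, ∀ x ∈ C n, ∀ ρ > 0, Thin (C m) (C n ∩ Metric.ball x ρ))
    (f : (⋃ m, C m : Set Y) → (⋃ m, C m : Set Y)) (hf : Function.Surjective f)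
    (hfd : ∀ x y, dist (f x) (f y) ≤ dist x y) (m : ℕ) :
    ∀ z : (⋃ m, C m : Set Y), z.1 ∈ C m → f z = z := by
  have hfc : Continuous f := (LipschitzWith.of_dist_le_mul (K := 1) (by simpa using hfd)).continuous
  induction m using Nat.strong_induction_on with
  | _ m ih =>
  intro z₀ hz₀
  have : CompactSpace (C m) := isCompact_iff_compactSpace.1 (hC m)
  have : Nonempty Y := ⟨z₀.1⟩
  have : Nonempty (⋃ m, C m : Set Y) := ⟨z₀⟩
  let j : C m → (⋃ m, C m : Set Y) := fun c => ⟨c.1, mem_iUnion.2 ⟨m, c.2⟩⟩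
  have hj : Continuous j := continuous_subtype_val.subtype_mk _
  let q : ℕ → Y := TopologicalSpace.denseSeq Y
  -- the closed cover
  let E : ℕ × ℕ × ℕ → Set (⋃ m, C m : Set Y) := fun p =>
    {a | a.1 ∈ C p.1 ∧ dist a.1 (q p.2.2) ≤ 1 / (8 * ((p.2.1 : ℝ) + 1)) ∧
      1 / ((p.2.1 : ℝ) + 1) ≤ dist (f a) a}
  have hE : ∀ p, IsCompact (E p) := by
    intro p
    have h1 : IsCompact (Subtype.val ⁻¹' (C p.1) : Set (⋃ m, C m : Set Y)) := by
      rw [Subtype.isCompact_iff, Subtype.image_preimage_coe,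
        inter_eq_self_of_subset_right (subset_iUnion C p.1)]
      exact hC p.1
    refine h1.of_isClosed_subset ?_ fun a ha => ha.1
    refine ((hC p.1).isClosed.preimage continuous_subtype_val).inter ?_
    exact (isClosed_le (continuous_subtype_val.dist continuous_const) continuous_const).inter
      (isClosed_le continuous_const (hfc.dist continuous_id))
  let G : Option (ℕ × ℕ × ℕ) → Set (C m) := fun o =>
    match o with
    | none => {c | f (j c) = j c}
    | some p => j ⁻¹' (f '' E p)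
  have hG : ∀ o, IsClosed (G o) := by
    rintro (_ | p)
    · exact isClosed_eq (hfc.comp hj) hj
    · exact ((hE p).image hfc).isClosed.preimage hj
  have hcov : ⋃ o, G o = univ := by
    refine eq_univ_of_forall fun c => ?_
    obtain ⟨a, ha⟩ := hf (j c)
    by_cases hfa : f a = a
    · refine mem_iUnion.2 ⟨none, ?_⟩
      show f (j c) = j c
      rw [← ha, hfa, hfa]
    · obtain ⟨k, hk⟩ := exists_nat_one_div_lt (dist_pos.2 hfa)
      obtain ⟨n, hn⟩ := mem_iUnion.1 a.2
      obtain ⟨_, ⟨i, rfl⟩, hi⟩ := Metric.mem_closure_iff.1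
        ((TopologicalSpace.denseRange_denseSeq Y) a.1) (1 / (8 * ((k : ℝ) + 1))) (by positivity)
      exact mem_iUnion.2 ⟨some (n, k, i), a, ⟨hn, hi.le, hk.le⟩, ha⟩
  have hdense := dense_iUnion_interior_of_closed hG hcov
  -- the fixed points are dense in `C m`
  have hcl : IsClosed {c : C m | f (j c) = j c} := isClosed_eq (hfc.comp hj) hj
  suffices h : Dense {c : C m | f (j c) = j c} by
    have h1 : (⟨z₀.1, hz₀⟩ : C m) ∈ {c : C m | f (j c) = j c} := by
      rw [← hcl.closure_eq]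
      exact h _
    exact h1
  rw [dense_iff_inter_open]
  intro U hU hUne
  obtain ⟨c, hcU, hc⟩ := dense_iff_inter_open.1 hdense U hU hUne
  obtain ⟨o, hco⟩ := mem_iUnion.1 hc
  rcases o with _ | ⟨n, k, i⟩
  · exact ⟨c, hcU, interior_subset hco⟩
  · exfalso
    obtain ⟨a₀, ha₀, hfa₀⟩ : j c ∈ f '' E (n, k, i) :=
      (interior_subset hco : c ∈ j ⁻¹' (f '' E (n, k, i)))
    obtain ⟨ρ, hρ, hb⟩ := Metric.isOpen_iff.1 isOpen_interior c hco
    have hk : (0 : ℝ) < 1 / ((k : ℝ) + 1) := by positivity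
    set ρ' : ℝ := min ρ (1 / (2 * ((k : ℝ) + 1))) with hρ'
    have hρ'pos : 0 < ρ' := lt_min hρ (by positivity)
    have h1 : ∀ c' ∈ C m ∩ Metric.ball c.1 ρ', ∃ a : (⋃ m, C m : Set Y), a ∈ E (n, k, i) ∧
        (f a).1 = c' := by
      rintro c' ⟨hc', hc'b⟩
      have h2 : (⟨c', hc'⟩ : C m) ∈ Metric.ball c ρ := by
        have : dist c' c.1 < ρ' := hc'b
        exact this.trans_le (min_le_left _ _)
      obtain ⟨a, ha, hfa⟩ : j ⟨c', hc'⟩ ∈ f '' E (n, k, i) :=
        (interior_subset (hb h2) : (⟨c', hc'⟩ : C m) ∈ j ⁻¹' (f '' E (n, k, i)))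
      exact ⟨a, ha, congrArg Subtype.val hfa⟩
    choose! g hg hg' using h1
    have hgd : ∀ c' ∈ C m ∩ Metric.ball c.1 ρ', ∀ c'' ∈ C m ∩ Metric.ball c.1 ρ',
        dist c' c'' ≤ dist (g c').1 (g c'').1 := by
      intro c' hc' c'' hc''
      have := hfd (g c') (g c'')
      rw [Subtype.dist_eq, Subtype.dist_eq, hg' c' hc', hg' c'' hc''] at this
      exact this
    rcases lt_trichotomy n m with hnm | hnm | hnm
    · have h2 := ih n hnm a₀ ha₀.1
      rw [h2] at hfa₀
      have h3 : a₀.1 ∈ C m := by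
        rw [hfa₀]
        exact c.2
      exact disjoint_left.1 (hdisj m n hnm) h3 ha₀.1
    · subst hnm
      refine not_thin (A := C n \ Metric.ball c.1 ρ') (fun c' => (g c').1) ?_ hgd
        (hrigid n c.1 c.2 ρ' hρ'pos)
      intro c' hc'
      refine ⟨(hg c' hc').1, ?_⟩
      rw [Metric.mem_ball, not_lt]
      have h2 : 1 / ((k : ℝ) + 1) ≤ dist (f a₀) a₀ := ha₀.2.2
      rw [hfa₀, Subtype.dist_eq] at h2
      have h2' : 1 / ((k : ℝ) + 1) ≤ dist c.1 a₀.1 := h2
      have h3 : dist a₀.1 (q i) ≤ 1 / (8 * ((k : ℝ) + 1)) := ha₀.2.1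
      have h4 : dist (g c').1 (q i) ≤ 1 / (8 * ((k : ℝ) + 1)) := (hg c' hc').2.1
      have h5 := dist_triangle_right (g c').1 a₀.1 (q i)
      have h6 := dist_triangle c.1 (g c').1 a₀.1
      have h7 : 1 / (8 * ((k : ℝ) + 1)) = (1 / 8) * (1 / ((k : ℝ) + 1)) := by
        field_simp
      have h8 : 1 / (2 * ((k : ℝ) + 1)) = (1 / 2) * (1 / ((k : ℝ) + 1)) := by
        field_simp
      have h9 : ρ' ≤ 1 / (2 * ((k : ℝ) + 1)) := min_le_right _ _
      rw [dist_comm (g c').1 c.1]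
      rw [h7] at h3 h4
      rw [h8] at h9
      linarith
    · exact not_thin (A := C n) (fun c' => (g c').1) (fun c' hc' => (hg c' hc').1) hgd
        (hthin n m hnm c.1 c.2 ρ' hρ'pos)

end main

/-- **Every `k`-crowded separable metric space `Y` has a subspace that is at the same time plastic,
dense in `Y`, `σ`-compact and `k`-crowded** (and on which the identity is the only non-expansive
bijection). -/
theorem result (Y : Type u) [MetricSpace Y] [TopologicalSpace.SeparableSpace Y]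
    (hY : KCrowded Y) :
    ∃ X : Set Y, Plastic X ∧ Dense X ∧ IsSigmaCompact X ∧ KCrowded X ∧
      ∀ f : X → X, Function.Bijective f → (∀ x y, dist (f x) (f y) ≤ dist x y) → f = id := by
  have : SecondCountableTopology Y := UniformSpace.secondCountable_of_separable Y
  obtain ⟨b, hbc, hb0, hb⟩ := TopologicalSpace.exists_countable_basis Y
  by_cases hne : b.Nonempty
  swap
  · -- the empty space
    have hempty : IsEmpty Y := by
      refine ⟨fun y => ?_⟩
      obtain ⟨v, hv, _⟩ := hb.exists_subset_of_mem_open (mem_univ y) isOpen_univ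
      exact hne ⟨v, hv⟩
    refine ⟨∅, fun f _ _ x => x.2.elim, fun y => (hempty.false y).elim, isSigmaCompact_empty,
      fun U _ ⟨x, _⟩ => x.2.elim, fun f _ _ => funext fun x => x.2.elim⟩
  obtain ⟨e, rfl⟩ := hbc.exists_eq_range hne
  obtain ⟨C, hC⟩ := exists_seq hY e fun k => hb.isOpen ⟨k, rfl⟩
  have hid : ∀ f : (⋃ m, C m : Set Y) → (⋃ m, C m : Set Y), Function.Bijective f →
      (∀ x y, dist (f x) (f y) ≤ dist x y) → f = id := by
    intro f hf hfd
    funext z
    obtain ⟨m, hm⟩ := mem_iUnion.1 z.2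
    exact eq_id (fun m => (hC m).1) (fun m => (hC m).2.2.2.1) (fun m => (hC m).2.2.2.2.2.1)
      (fun m => (hC m).2.2.2.2.2.2) f hf.2 hfd m z hm
  -- each basic open set contains some `C m` or is contained in the union
  have hbasic : ∀ k, ((C k).Nonempty ∧ C k ⊆ e k) ∨ e k ⊆ ⋃ m, C m := by
    intro k
    by_cases h : e k ⊆ ⋃ n ∈ Finset.range k, C n
    · right
      intro z hz
      obtain ⟨n, _, hn⟩ := mem_iUnion₂.1 (h hz)
      exact mem_iUnion.2 ⟨n, hn⟩
    · exact Or.inl ⟨(hC k).2.2.2.2.1 h, (hC k).2.2.1⟩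
  refine ⟨⋃ m, C m, ?_, ?_, isSigmaCompact_iUnion_of_isCompact _ fun m => (hC m).1, ?_, hid⟩
  · intro f hf hfd x y
    rw [hid f hf hfd]
    rfl
  · rw [dense_iff_inter_open]
    rintro U hU ⟨y, hy⟩
    obtain ⟨_, ⟨k, rfl⟩, hyk, hkU⟩ := hb.exists_subset_of_mem_open hy hU
    rcases hbasic k with ⟨⟨z, hz⟩, hsub⟩ | h
    · exact ⟨z, hkU (hsub hz), mem_iUnion.2 ⟨k, hz⟩⟩
    · exact ⟨y, hy, h hyk⟩
  · intro U hU
    rintro ⟨x, hx⟩
    obtain ⟨O, hO, rfl⟩ := isOpen_induced_iff.1 hU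
    obtain ⟨_, ⟨k, rfl⟩, hxk, hkO⟩ := hb.exists_subset_of_mem_open
      (show x.1 ∈ O from hx) hO
    have key : ∃ K : Set Y, K ⊆ e k ∧ K ⊆ (⋃ m, C m) ∧ IsCompact K ∧ ¬ K.Countable := by
      rcases hbasic k with ⟨hCk, hsub⟩ | h
      · exact ⟨C k, hsub, subset_iUnion C k, (hC k).1,
          uncountable_of_perf (hC k).1 (hC k).2.1 hCk⟩
      · obtain ⟨K, hK1, hK2, hK3⟩ := hY (e k) (hb.isOpen ⟨k, rfl⟩) ⟨x.1, hxk⟩
        exact ⟨K, hK1, hK1.trans h, hK2, hK3⟩
    obtain ⟨K, hKe, hKX, hKc, hKu⟩ := key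
    refine ⟨Subtype.val ⁻¹' K, fun z hz => hkO (hKe hz), ?_, ?_⟩
    · rw [Subtype.isCompact_iff, Subtype.image_preimage_coe, inter_eq_self_of_subset_right hKX]
      exact hKc
    · intro hcount
      apply hKu
      have := hcount.image (Subtype.val : (⋃ m, C m : Set Y) → Y)
      rwa [Subtype.image_preimage_coe, inter_eq_self_of_subset_right hKX] at this

end Pool.Agent.Results.MP_4aa5c9_gt.PlasticDense
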